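import Pool.Agent.LogCentres.CsC

/-!
# The reflection in a line and the Bezoutian
-/

namespace Pool.Agent.H53LS

open MvPolynomial Pool.Agent.PlanarCentres Pool.Agent.LogCentres

/-- the signs `1, -1` -/
def sn (i : Fin 2) : ℝ := if i = 0 then 1 else -1

theorem sn_sq (i : Fin 2) : sn i * sn i = 1 := by
  unfold sn; split_ifs <;> norm_num

/-- the reflection of the plane -/
def rp (x : Fin 2 → ℝ) : Fin 2 → ℝ := fun i => sn i * x i

theorem rp_rp (x : Fin 2 → ℝ) : rp (rp x) = x := by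
  funext i
  simp only [rp]
  rw [← mul_assoc, sn_sq, one_mul]

/-- the polynomial `p(x, -y)` -/
noncomputable def tg : R →ₐ[ℝ] R := aeval fun i => C (sn i) * X i

theorem tg_X (i : Fin 2) : tg (X i) = C (sn i) * X i := by simp [tg]

theorem tg_C (r : ℝ) : tg (C r) = C r := by simp [tg]

theorem tg_eval (x : Fin 2 → ℝ) (p : R) : eval x (tg p) = eval (rp x) p := by
  induction p using MvPolynomial.induction_on with
  | C a => rw [tg_C, eval_C, eval_C]
  | add p q hp hq => rw [map_add, map_add, map_add, hp, hq]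
  | mul_X p i hp =>
    rw [map_mul, map_mul, map_mul, hp, tg_X, map_mul, eval_C, eval_X, eval_X]
    rfl

theorem tg_tg (p : R) : tg (tg p) = p := by
  apply MvPolynomial.funext
  intro x
  rw [tg_eval, tg_eval, rp_rp]

/-- the reflection in both groups of variables -/
noncomputable def Tg : T →+* T :=
  eval₂Hom ((C : R →+* T).comp (tg : R →+* R)) (fun i => iu (C (sn i)) * X i)

theorem Tg_iu (b : R) : Tg (iu b) = iu (tg b) := by
  rw [iu_eq, iu_eq, Tg, coe_eval₂Hom, eval₂_C]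
  rfl

theorem Tg_ix (a : R) : Tg (ix a) = ix (tg a) := by
  induction a using MvPolynomial.induction_on with
  | C r => rw [tg_C, ix_C, Tg_iu, tg_C]
  | add p q hp hq => rw [map_add, map_add, hp, hq, map_add, map_add]
  | mul_X p i hp =>
    rw [map_mul, map_mul, hp, map_mul, map_mul, tg_X, ix_X, map_mul, ix_X, ix_C, Tg,
      coe_eval₂Hom, eval₂_X]

theorem Tg_e (i : Fin 2) : Tg (e i) = iu (C (sn i)) * e i := by
  rw [e, map_sub, Tg_ix, Tg_iu, tg_X, map_mul, map_mul, ix_C]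
  ring

/-- a functional composed with the reflection -/
noncomputable def rt (φ : R →ₗ[ℝ] ℝ) : R →ₗ[ℝ] ℝ := φ ∘ₗ tg.toLinearMap

theorem rt_apply (φ : R →ₗ[ℝ] ℝ) (p : R) : rt φ p = φ (tg p) := rfl

theorem pair_rt (φ ψ : R →ₗ[ℝ] ℝ) (t : T) : pair (rt φ) (rt ψ) t = pair φ ψ (Tg t) := by
  obtain ⟨n, a, b, rfl⟩ := exists_sum t
  rw [map_sum, map_sum, map_sum]
  refine Finset.sum_congr rfl fun i _ => ?_
  rw [Tg.map_mul, Tg_ix, Tg_iu]
  change rt φ (app (rt ψ) (ix (a i) * iu (b i))) = φ (app ψ (ix (tg (a i)) * iu (tg (b i))))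
  rw [app_ix_iu, app_ix_iu, map_smul, map_smul, rt_apply, rt_apply]

/-- the reflection preserves the Bezoutian of a symmetric system -/
theorem pair_line {P Q : R} {ε : ℝ} (hε : ε * ε = 1) (hP : tg P = C ε * P)
    (hQ : tg Q = C (-ε) * Q)
    {A B C' D : T} (h1 : Ker P A B) (h2 : Ker Q C' D) {φ ψ : R →ₗ[ℝ] ℝ}
    (hφ : ∀ q ∈ Ideal.span {P, Q}, φ q = 0) (hψ : ∀ q ∈ Ideal.span {P, Q}, ψ q = 0) :
    pair (rt φ) (rt ψ) (A * D - B * C') = pair φ ψ (A * D - B * C') := by
  have hc : (iu (C ε) : T) * iu (C ε) = 1 := by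
    rw [← map_mul, ← C_mul, hε, C_1, map_one]
  have s0 : (iu (C (sn 0)) : T) = 1 := by
    rw [sn, if_pos rfl, C_1, map_one]
  have s1 : (iu (C (sn 1)) : T) = -1 := by
    rw [sn, if_neg (by decide), C_neg, C_1, map_neg, map_one]
  have key : ∀ {F : R} {a b : T} {δ : ℝ}, (iu (C δ) : T) * iu (C δ) = 1 → tg F = C δ * F →
      Ker F a b → Ker F (iu (C δ) * Tg a) (-(iu (C δ) * Tg b)) := by
    intro F a b δ hd hF h
    have k := congrArg Tg h
    rw [map_sub, Tg_ix, Tg_iu, hF, map_mul, map_mul, ix_C, map_add, Tg.map_mul, Tg.map_mul,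
      Tg_e, Tg_e, s0, s1] at k
    unfold Ker
    linear_combination (iu (C δ)) * k - (ix F - iu F) * hd
  have hc' : (iu (C (-ε)) : T) = - iu (C ε) := by rw [C_neg, map_neg]
  have k1 := key hc hP h1
  have k2 := key (by rw [hc']; linear_combination hc) hQ h2
  rw [hc'] at k2
  have h3 := pair_ideal (f := P) (h := Q) (P := P) (Q := Q) (U₁ := 1) (V₁ := 0) (U₂ := 0)
    (V₂ := 1) (by ring) (by ring) hφ hψ k1 k2 h1 h2
  rw [pair_rt]
  have e1 : Tg (A * D - B * C') = (iu (C ε) * Tg A) * -(-iu (C ε) * Tg D) -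
      -(iu (C ε) * Tg B) * (-iu (C ε) * Tg C') := by
    rw [map_sub, map_mul, map_mul]
    linear_combination (-(Tg A * Tg D - Tg B * Tg C')) * hc
  rw [e1, h3]
  congr 1
  rw [mul_one, mul_zero, sub_zero, map_one, one_mul]

theorem good_rt {P Q : R} {ε δ : ℝ} (hP : tg P = C ε * P) (hQ : tg Q = C δ * Q)
    {p : Fin 2 → ℝ} {φ : R →ₗ[ℝ] ℝ} (hφ : Good P Q p φ) : Good P Q (rp p) (rt φ) := by
  obtain ⟨hφI, L, hφL⟩ := hφ
  refine ⟨?_, L, ?_⟩
  · intro q hq
    obtain ⟨a, b, rfl⟩ := Ideal.mem_span_pair.1 hq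
    rw [rt_apply]
    apply hφI
    rw [map_add, map_mul, map_mul, hP, hQ]
    exact Ideal.mem_span_pair.2 ⟨tg a * C ε, tg b * C δ, by ring⟩
  · intro q hq
    rw [rt_apply]
    apply hφL
    have h1 : RingHom.ker (eval (rp p) : R →+* ℝ) ≤
        Ideal.comap (tg : R →+* R) (RingHom.ker (eval p : R →+* ℝ)) := by
      intro r hr
      rw [Ideal.mem_comap, RingHom.mem_ker]
      rw [RingHom.mem_ker] at hr
      change eval p (tg r) = 0
      rw [tg_eval]
      exact hr
    have h2 := (Ideal.pow_right_mono h1 L).trans (Ideal.le_comap_pow (tg : R →+* R) L)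
    exact h2 hq

/-- exponents with odd second entry -/
def odM (n : ℕ) : Finset (ℕ × ℕ) :=
  (Finset.range n).biUnion fun d => (Finset.range ((d + 1) / 2)).image
    fun j => (d - (2 * j + 1), 2 * j + 1)

theorem mem_odM {n : ℕ} {m : ℕ × ℕ} (h : m.1 + m.2 < n) (h2 : m.2 % 2 = 1) : m ∈ odM n := by
  obtain ⟨a, b⟩ := m
  simp only at h h2
  refine Finset.mem_biUnion.2 ⟨a + b, Finset.mem_range.2 h, Finset.mem_image.2
    ⟨b / 2, Finset.mem_range.2 (by omega), ?_⟩⟩
  rw [Prod.mk.injEq]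
  constructor <;> omega

theorem card_odM (n : ℕ) : (odM n).card ≤ n ^ 2 / 4 := by
  have h1 : (odM n).card ≤ ∑ d ∈ Finset.range n, (d + 1) / 2 := by
    refine Finset.card_biUnion_le.trans (Finset.sum_le_sum fun d _ => ?_)
    exact Finset.card_image_le.trans (Finset.card_range _).le
  have h2 : ∀ n : ℕ, ∑ d ∈ Finset.range n, (d + 1) / 2 = n ^ 2 / 4 := by
    intro n
    induction n with
    | zero => simp
    | succ n ih =>
      rw [Finset.sum_range_succ, ih]
      obtain ⟨m, hm⟩ := Nat.even_or_odd' n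
      rcases hm with rfl | rfl
      · have e1 : (2 * m) ^ 2 = 4 * m ^ 2 := by ring
        have e2 : (2 * m + 1) ^ 2 = 4 * (m ^ 2 + m) + 1 := by ring
        omega
      · have e1 : (2 * m + 1) ^ 2 = 4 * (m ^ 2 + m) + 1 := by ring
        have e2 : (2 * m + 1 + 1) ^ 2 = 4 * (m ^ 2 + 2 * m + 1) := by ring
        omega
  exact h1.trans (h2 n).le

theorem tg_mo (m : ℕ × ℕ) : tg (mo m) = (-1 : ℝ) ^ m.2 • mo m := by
  have s0 : (sn 0) = 1 := by rw [sn, if_pos rfl]
  have s1 : (sn 1) = -1 := by rw [sn, if_neg (by decide)]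
  rw [mo, map_mul, map_pow, map_pow, tg_X, tg_X, s0, s1, mul_pow, mul_pow, smul_eq_C_mul,
    map_pow, C_1]
  ring

theorem kill_low' {n : ℕ} {φ : R →ₗ[ℝ] ℝ} (hcl : ∀ q, φ (tg q) = -φ q)
    (hk : ∀ m ∈ odM n, φ (mo m) = 0) {q : R} (hq : q.totalDegree < n) : φ q = 0 := by
  have key : ∀ m : ℕ × ℕ, m.1 + m.2 < n → φ (mo m) = 0 := by
    intro m hm
    rcases Nat.mod_two_eq_zero_or_one m.2 with h | h
    · have h1 := hcl (mo m)
      rw [tg_mo, map_smul, (Nat.even_iff.2 h).neg_one_pow, one_smul] at h1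
      linarith
    · exact hk m (mem_odM hm h)
  rw [sum_mo q, map_sum]
  refine Finset.sum_eq_zero fun s hs => ?_
  rw [map_smul, key (s 0, s 1), smul_zero]
  have := deg_two (le_refl q.totalDegree) hs
  simp only
  omega

/-- orthogonal odd functionals with positive squares -/
theorem card_odd {n k : ℕ} (hnk : n = k + 1) {ι : Type} [Fintype ι] (Φ : ι → R →ₗ[ℝ] ℝ)
    {t : T} (ht : t ∈ Fil (k + k)) (hcl : ∀ i q, Φ i (tg q) = -Φ i q)
    (horth : ∀ i j, i ≠ j → pair (Φ i) (Φ j) t = 0) (hpos : ∀ i, 0 < pair (Φ i) (Φ i) t) :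
    Fintype.card ι ≤ n ^ 2 / 4 := by
  classical
  let L : (ι → ℝ) →ₗ[ℝ] (odM n → ℝ) :=
    { toFun := fun w m => ∑ i, w i * Φ i (mo m.1)
      map_add' := fun w v => by
        funext m; simp [add_mul, Finset.sum_add_distrib]
      map_smul' := fun c w => by
        funext m
        simp only [Pi.smul_apply, smul_eq_mul, RingHom.id_apply, Finset.mul_sum]
        refine Finset.sum_congr rfl fun i _ => ?_
        ring }
  have hinj : Function.Injective L := by
    rw [← LinearMap.ker_eq_bot, LinearMap.ker_eq_bot']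
    intro w hw
    obtain ⟨φ, hφ⟩ : ∃ φ, φ = ∑ i, w i • Φ i := ⟨_, rfl⟩
    have h1 : ∀ q, φ (tg q) = -φ q := by
      intro q
      rw [hφ, LinearMap.sum_apply, LinearMap.sum_apply, ← Finset.sum_neg_distrib]
      refine Finset.sum_congr rfl fun i _ => ?_
      rw [LinearMap.smul_apply, LinearMap.smul_apply, hcl, smul_neg]
    have h2 : ∀ m ∈ odM n, φ (mo m) = 0 := by
      intro m hm
      have h3 := congrFun hw ⟨m, hm⟩
      rw [hφ, LinearMap.sum_apply]
      exact h3
    have h3 : pair φ φ t = 0 := pair_low ht fun q hq => kill_low' h1 h2 (by omega)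
    have h4 : pair φ φ t = ∑ i, w i * (w i * pair (Φ i) (Φ i) t) := by
      rw [hφ, pair_sum_l]
      refine Finset.sum_congr rfl fun i _ => ?_
      rw [pair_sum_r, Finset.sum_eq_single i]
      · intro j _ hj
        rw [horth i j (Ne.symm hj), mul_zero]
      · intro h
        exact absurd (Finset.mem_univ i) h
    rw [h3] at h4
    have h5 := (Finset.sum_eq_zero_iff_of_nonneg (fun i _ => by
      rw [← mul_assoc]
      exact mul_nonneg (mul_self_nonneg (w i)) (hpos i).le)).1 h4.symm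
    funext i
    have h6 := h5 i (Finset.mem_univ i)
    rw [← mul_assoc, mul_eq_zero] at h6
    rcases h6 with h6 | h6
    · exact mul_self_eq_zero.1 h6
    · exact absurd h6 (hpos i).ne'
  have h7 := LinearMap.finrank_le_finrank_of_injective hinj
  rw [Module.finrank_fintype_fun_eq_card, Module.finrank_fintype_fun_eq_card,
    Fintype.card_coe] at h7
  exact h7.trans (card_odM n)

theorem pderiv_tg (i : Fin 2) (F : R) : pderiv i (tg F) = C (sn i) * tg (pderiv i F) := by
  induction F using MvPolynomial.induction_on with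
  | C a => simp [tg]
  | add p q hp hq => rw [map_add, map_add, map_add, map_add, hp, hq]; ring
  | mul_X p j hp =>
    rw [map_mul, Derivation.leibniz, Derivation.leibniz, map_add, tg_X, hp]
    simp only [smul_eq_mul, map_mul, tg_X, Derivation.leibniz, pderiv_C]
    by_cases h : j = i
    · subst h
      simp only [pderiv_X_self, map_one]
      ring
    · rw [pderiv_X_of_ne h]
      simp only [map_zero]
      ring

/-- the count for a reduced pair -/
theorem card_line0 {P Q : R} {n : ℕ} (hn : 1 ≤ n) (hrel : IsRelPrime P Q)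
    (hP : P.totalDegree ≤ n) (hQ : Q.totalDegree ≤ n) {ε : ℝ} (hε : ε * ε = 1)
    (hsP : tg P = C ε * P) (hsQ : tg Q = C (-ε) * Q) (S : Finset (Fin 2 → ℝ))
    (hS : ∀ p ∈ S, eval p P = 0 ∧ eval p Q = 0 ∧ 0 ≤ eval p (jacP P Q)) (hS1 : ∀ p ∈ S, p 1 ≠ 0) :
    S.card ≤ 2 * (n ^ 2 / 4) := by
  classical
  obtain ⟨k, rfl⟩ : ∃ k, n = k + 1 := ⟨n - 1, by omega⟩
  obtain ⟨A, B, hAB⟩ := exists_dec hP
  obtain ⟨C', D, hCD⟩ := exists_dec hQ
  have h1 : Ker P A B := hAB.eq
  have h2 : Ker Q C' D := hCD.eq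
  obtain ⟨t, htd⟩ : ∃ t, t = A * D - B * C' := ⟨_, rfl⟩
  have ht : t ∈ Fil (k + k) := by
    rw [htd]
    exact sub_mem (Fil_mul hAB.memA hCD.memB) (Fil_mul hAB.memB hCD.memA)
  have s0 : (sn 0) = 1 := by rw [sn, if_pos rfl]
  have s1 : (sn 1) = -1 := by rw [sn, if_neg (by decide)]
  have hsj : ∀ p : Fin 2 → ℝ, eval (rp p) (jacP P Q) = eval p (jacP P Q) := by
    intro p
    have hd : ∀ (F : R) (δ : ℝ) (i : Fin 2), tg F = C δ * F →
        eval (rp p) (pderiv i F) = sn i * (δ * eval p (pderiv i F)) := by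
      intro F δ i hF
      have h3 := congrArg (eval p) (pderiv_tg i F)
      rw [hF, Derivation.leibniz, pderiv_C, smul_zero, add_zero, smul_eq_mul, map_mul, map_mul,
        eval_C, eval_C, tg_eval] at h3
      rw [h3, ← mul_assoc, sn_sq, one_mul]
    rw [jacP, map_sub, map_mul, map_mul, hd P ε 0 hsP, hd P ε 1 hsP, hd Q (-ε) 0 hsQ,
      hd Q (-ε) 1 hsQ, map_sub, map_mul, map_mul, s0, s1]
    linear_combination (eval p (pderiv 0 P) * eval p (pderiv 1 Q) -
      eval p (pderiv 1 P) * eval p (pderiv 0 Q)) * hε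
  have hneg : ∀ p : Fin 2 → ℝ, (eval p P = 0 ∧ eval p Q = 0 ∧ 0 ≤ eval p (jacP P Q)) →
      (eval (rp p) P = 0 ∧ eval (rp p) Q = 0 ∧ 0 ≤ eval (rp p) (jacP P Q)) := by
    rintro p ⟨g1, g2, g3⟩
    refine ⟨?_, ?_, by rw [hsj]; exact g3⟩
    · rw [← tg_eval, hsP, map_mul, g1, mul_zero]
    · rw [← tg_eval, hsQ, map_mul, g2, mul_zero]
  have hr1 : ∀ p : Fin 2 → ℝ, rp p 1 = -p 1 := by
    intro p; rw [rp, s1, neg_one_mul]
  obtain ⟨T1, hT1⟩ : ∃ T1, T1 = (S ∪ S.image rp).filter fun p => 0 < p 1 := ⟨_, rfl⟩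
  have hT1p : ∀ p ∈ T1, 0 < p 1 ∧ eval p P = 0 ∧ eval p Q = 0 ∧ 0 ≤ eval p (jacP P Q) := by
    intro p hp
    rw [hT1, Finset.mem_filter] at hp
    refine ⟨hp.2, ?_⟩
    rcases Finset.mem_union.1 hp.1 with h | h
    · exact hS p h
    · obtain ⟨q, hq, rfl⟩ := Finset.mem_image.1 h
      exact hneg q (hS q hq)
  have hcover : S ⊆ T1 ∪ T1.image rp := by
    intro p hp
    rw [Finset.mem_union]
    rcases lt_or_gt_of_ne (hS1 p hp) with h | h
    · right
      rw [Finset.mem_image]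
      refine ⟨rp p, ?_, rp_rp p⟩
      rw [hT1, Finset.mem_filter]
      refine ⟨Finset.mem_union_right _ (Finset.mem_image_of_mem _ hp), ?_⟩
      rw [hr1]; linarith
    · left
      rw [hT1, Finset.mem_filter]
      exact ⟨Finset.mem_union_left _ hp, h⟩
  have hcard : S.card ≤ 2 * T1.card := by
    have e1 := Finset.card_le_card hcover
    have e3 := Finset.card_union_le T1 (T1.image rp)
    have e4 : (T1.image rp).card ≤ T1.card := Finset.card_image_le
    omega
  have hex : ∀ p : {p // p ∈ T1}, ∃ α β : R →ₗ[ℝ] ℝ, Good P Q p.1 α ∧ Good P Q (rp p.1) β ∧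
      (∀ q, (α + β) (tg q) = -(α + β) q) ∧ 0 < pair (α + β) (α + β) t := by
    rintro ⟨p, hp⟩
    obtain ⟨hl, g1, g2, g3⟩ := hT1p p hp
    obtain ⟨φ, L, hφI, hφL, hφp⟩ := pos_fn hrel g1 g2 h1 h2 g3
    have hg : Good P Q p φ := ⟨hφI, L, hφL⟩
    have hr : Good P Q (rp p) (rt φ) := good_rt hsP hsQ hg
    have hz : p ≠ rp p := by
      intro h
      have h3 := congrFun h 1
      rw [hr1] at h3
      linarith
    refine ⟨φ, (-1 : ℝ) • rt φ, hg, good_smul _ hr, ?_, ?_⟩
    · intro q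
      rw [LinearMap.add_apply, LinearMap.smul_apply, rt_apply, tg_tg, LinearMap.add_apply,
        LinearMap.smul_apply, rt_apply, smul_eq_mul, smul_eq_mul]
      ring
    · have c1 : pair φ (rt φ) t = 0 := by
        rw [htd]; exact good_orth h1 h2 hz hg hr
      have c2 : pair (rt φ) φ t = 0 := by
        rw [htd]; exact good_orth h1 h2 hz.symm hr hg
      have c3 : pair (rt φ) (rt φ) t = pair φ φ t := by
        rw [htd]; exact pair_line hε hsP hsQ h1 h2 hφI hφI
      rw [← htd] at hφp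
      rw [pair_add_l, pair_add_r, pair_add_r, pair_smul_l, pair_smul_l, pair_smul_r,
        pair_smul_r, c1, c2, c3]
      linarith
  choose α β ha hb hc hd using hex
  have h3 := card_odd (n := k + 1) (k := k) rfl (fun p => α p + β p) ht hc ?_ hd
  · rw [Fintype.card_coe] at h3
    omega
  · intro i j hij
    have hi := (hT1p i.1 i.2).1
    have hj := (hT1p j.1 j.2).1
    have hne : i.1 ≠ j.1 := fun h => hij (Subtype.ext h)
    have hne2 : i.1 ≠ rp j.1 := by
      intro h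
      have h4 := congrFun h 1
      rw [hr1] at h4
      linarith
    have hne3 : rp i.1 ≠ j.1 := fun h => hne2 (by rw [← h, rp_rp])
    have hne4 : rp i.1 ≠ rp j.1 := fun h => hne (by rw [← rp_rp i.1, h, rp_rp])
    rw [pair_add_l, pair_add_r, pair_add_r, htd, good_orth h1 h2 hne (ha i) (ha j),
      good_orth h1 h2 hne2 (ha i) (hb j), good_orth h1 h2 hne3 (hb i) (ha j),
      good_orth h1 h2 hne4 (hb i) (hb j)]
    ring

end Pool.Agent.H53LS
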