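import Pool.Agent.H53LS.La
import Pool.Agent.LogCentres.CsD
import Pool.Agent.LogCentres.LiOff
import Pool.Agent.PlanarCentres.AffLine

/-!
# Affine involutions
-/

namespace Pool.Agent.H53LS

open MvPolynomial Pool.Agent.PlanarCentres Pool.Agent.LogCentres

theorem jac_sub (N : Fin 2 → Fin 2 → ℝ) (c : Fin 2 → ℝ) (F G : R) (a0 a1 b0 b1 : ℝ)
    (p : Fin 2 → ℝ) :
    jac (C a0 * sub N c F + C a1 * sub N c G) (C b0 * sub N c F + C b1 * sub N c G) p =
      (a0 * b1 - a1 * b0) * (N 0 0 * N 1 1 - N 0 1 * N 1 0) * jac F G (aff N c p) := by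
  have hd : ∀ (a b : ℝ) (i : Fin 2), eval p (pderiv i (C a * sub N c F + C b * sub N c G)) =
      a * (N 0 i * eval (aff N c p) (pderiv 0 F) + N 1 i * eval (aff N c p) (pderiv 1 F)) +
      b * (N 0 i * eval (aff N c p) (pderiv 0 G) + N 1 i * eval (aff N c p) (pderiv 1 G)) := by
    intro a b i
    rw [map_add, Derivation.leibniz, Derivation.leibniz, pderiv_C, pderiv_C, smul_zero, smul_zero,
      add_zero, add_zero, pderiv_sub', pderiv_sub']
    simp only [smul_eq_mul, map_add, map_mul, eval_C, eval_sub']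
  rw [jac, hd, hd, hd, hd, jac]
  ring

theorem tg_reduced {P Q P₀ Q₀ c : R} (hc0 : c ≠ 0) (hP₀ : P₀ ≠ 0) (hrp : IsRelPrime P₀ Q₀)
    (hPe : c * P₀ = P) (hQe : c * Q₀ = Q) {e : ℝ} (hee : e * e = 1) (h1 : tg P = C e * P)
    (h2 : tg Q = C (-e) * Q) : ∃ u : ℝ, u * u = 1 ∧ tg P₀ = C u * P₀ ∧ tg Q₀ = C (-u) * Q₀ := by
  have hcee : (C e : R) * C e = 1 := by rw [← C_mul, hee, C_1]
  have hcross : tg P₀ * Q₀ = -(tg Q₀ * P₀) := by
    have h3 : P₀ * Q = Q₀ * P := by rw [← hPe, ← hQe]; ring
    have h4 := congrArg tg h3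
    rw [map_mul, map_mul, h1, h2, ← hPe, ← hQe, C_neg] at h4
    apply mul_left_cancel₀ hc0
    linear_combination (-C e) * h4 - (tg P₀ * (c * Q₀) + tg Q₀ * (c * P₀)) * hcee
  obtain ⟨w, hw⟩ : P₀ ∣ tg P₀ := by
    have h3 : P₀ ∣ tg P₀ * Q₀ := ⟨-tg Q₀, by rw [hcross]; ring⟩
    exact hrp.dvd_of_dvd_mul_right h3
  have hw2 : tg Q₀ = -(w * Q₀) := by
    apply mul_right_cancel₀ hP₀
    linear_combination hcross - Q₀ * hw
  have hww : w * tg w = 1 := by
    have h3 := congrArg tg hw
    rw [tg_tg, map_mul, hw] at h3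
    apply mul_left_cancel₀ hP₀
    linear_combination -h3
  have hwu : IsUnit w := IsUnit.of_mul_eq_one _ hww
  obtain ⟨u, hu⟩ : ∃ u : ℝ, w = C u :=
    ⟨coeff 0 w, totalDegree_eq_zero_iff_eq_C.1
      (MvPolynomial.isUnit_iff_totalDegree_of_isReduced.1 hwu).2⟩
  refine ⟨u, ?_, ?_, ?_⟩
  · rw [hu, tg_C, ← C_mul, ← C_1] at hww
    exact C_injective _ _ hww
  · rw [hw, hu, mul_comm]
  · rw [hw2, hu, C_neg]; ring

/-- eigenvectors of an involution of the plane -/
theorem exists_eigen (L : (Fin 2 → ℝ) →ₗ[ℝ] (Fin 2 → ℝ)) (hL : ∀ x, L (L x) = x)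
    (h1 : ∃ x, L x ≠ x) (h2 : ∃ x, L x ≠ -x) :
    ∃ v w : Fin 2 → ℝ, L v = v ∧ L w = -w ∧ v 0 * w 1 - w 0 * v 1 ≠ 0 := by
  obtain ⟨x, hx⟩ := h1
  obtain ⟨y, hy⟩ := h2
  refine ⟨y + L y, x - L x, by rw [map_add, hL, add_comm], by rw [map_sub, hL, neg_sub], ?_⟩
  obtain ⟨v, hv⟩ : ∃ v, v = y + L y := ⟨_, rfl⟩
  obtain ⟨w, hw⟩ : ∃ w, w = x - L x := ⟨_, rfl⟩
  have hv1 : L v = v := by rw [hv, map_add, hL, add_comm]
  have hw1 : L w = -w := by rw [hw, map_sub, hL, neg_sub]
  have hv0 : v ≠ 0 := by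
    intro h
    apply hy
    rw [hv] at h
    exact (neg_eq_of_add_eq_zero_right h).symm
  have hw0 : w ≠ 0 := by
    intro h
    apply hx
    rw [hw] at h
    exact (sub_eq_zero.1 h).symm
  rw [← hv, ← hw]
  intro hD
  -- `v` and `w` are proportional
  have key : ∀ i, w i • v = v i • w := by
    intro i
    funext j
    simp only [Pi.smul_apply, smul_eq_mul]
    fin_cases i <;> fin_cases j <;> simp only [Fin.zero_eta, Fin.mk_one] <;>
      first | linear_combination hD | linear_combination -hD | ring1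
  obtain ⟨i, hi⟩ : ∃ i, v i ≠ 0 := by
    by_contra hcon
    push Not at hcon
    exact hv0 (funext hcon)
  have h3 := congrArg L (key i)
  rw [map_smul, map_smul, hv1, hw1, key i, smul_neg] at h3
  have h4 : v i • w = 0 := self_eq_neg.1 h3
  rcases smul_eq_zero.1 h4 with h5 | h5
  · exact hi h5
  · exact hw0 h5

theorem line_main {P Q : R} {n : ℕ} (hn : 1 ≤ n) (hP : P.totalDegree ≤ n)
    (hQ : Q.totalDegree ≤ n) (s : (Fin 2 → ℝ) →ᵃ[ℝ] (Fin 2 → ℝ)) (hs : ∀ x, s (s x) = x)
    (h1 : ∃ x, s.linear x ≠ x) (h2 : ∃ x, s.linear x ≠ -x) {e : ℝ} (he : e = 1 ∨ e = -1)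
    (h : ∀ x, (![eval (s x) P, eval (s x) Q] : Fin 2 → ℝ) =
      e • s.linear ![eval x P, eval x Q]) :
    (∀ S : Finset (Fin 2 → ℝ), (∀ p ∈ S, IsCentre P Q p) → (∀ p ∈ S, s p ≠ p) →
      S.card ≤ 2 * (n ^ 2 / 4)) ∧ (e = 1 → ∀ p, IsCentre P Q p → s p ≠ p) := by
  classical
  have hee : e * e = 1 := by rcases he with rfl | rfl <;> norm_num
  have hs' : ∀ x y : Fin 2 → ℝ, s (x + y) = s x + s.linear y := by
    intro x y
    have h3 := s.map_vadd x y
    rw [vadd_eq_add, vadd_eq_add] at h3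
    rw [add_comm x y, h3, add_comm]
  have hLL : ∀ x, s.linear (s.linear x) = x := by
    intro x
    have h3 := hs (0 + x)
    rw [hs', hs', hs 0, zero_add, zero_add] at h3
    exact h3
  obtain ⟨v, w, hv, hw, hD⟩ := exists_eigen s.linear hLL h1 h2
  obtain ⟨u, hu⟩ : ∃ u : Fin 2 → ℝ, s u = u := by
    refine ⟨(1 / 2 : ℝ) • s 0, ?_⟩
    have h3 : s.linear (s 0) = - s 0 := by
      have h4 := hs 0
      have h5 := hs' 0 (s 0)
      rw [zero_add, h4] at h5
      exact (neg_eq_of_add_eq_zero_right h5.symm).symm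
    have h4 := hs' 0 ((1 / 2 : ℝ) • s 0)
    rw [zero_add] at h4
    rw [h4, map_smul, h3]
    funext i
    simp only [Pi.add_apply, Pi.smul_apply, Pi.neg_apply, smul_eq_mul]
    ring
  obtain ⟨D, hDd⟩ : ∃ D, D = v 0 * w 1 - w 0 * v 1 := ⟨_, rfl⟩
  rw [← hDd] at hD
  obtain ⟨A, hA⟩ : ∃ A : Fin 2 → Fin 2 → ℝ, A = fun i j => if j = 0 then v i else w i := ⟨_, rfl⟩
  have a00 : A 0 0 = v 0 := by rw [hA]; simp
  have a10 : A 1 0 = v 1 := by rw [hA]; simp
  have a01 : A 0 1 = w 0 := by rw [hA]; simp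
  have a11 : A 1 1 = w 1 := by rw [hA]; simp
  have affA : ∀ x, aff A u x = u + (x 0 • v + x 1 • w) := by
    intro x
    funext i
    simp only [aff, hA, Pi.add_apply, Pi.smul_apply, smul_eq_mul, if_true, one_ne_zero, if_false]
    ring
  have sA : ∀ x, s (aff A u x) = aff A u (rp x) := by
    intro x
    have s0 : (sn 0) = 1 := by rw [sn, if_pos rfl]
    have s1 : (sn 1) = -1 := by rw [sn, if_neg (by decide)]
    rw [affA, affA, hs', hu, map_add, map_smul, map_smul, hv, hw, rp, rp, s0, s1, one_mul,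
      neg_one_mul, smul_neg, neg_smul]
  obtain ⟨N, hN⟩ : ∃ N : Fin 2 → Fin 2 → ℝ, N = fun i j =>
      (![![w 1 / D, -w 0 / D], ![-v 1 / D, v 0 / D]] : Fin 2 → Fin 2 → ℝ) i j := ⟨_, rfl⟩
  have n00 : N 0 0 = w 1 / D := by rw [hN]; rfl
  have n01 : N 0 1 = -w 0 / D := by rw [hN]; rfl
  have n10 : N 1 0 = -v 1 / D := by rw [hN]; rfl
  have n11 : N 1 1 = v 0 / D := by rw [hN]; rfl
  obtain ⟨c, hc⟩ : ∃ c : Fin 2 → ℝ, c = fun i => -(N i 0 * u 0 + N i 1 * u 1) := ⟨_, rfl⟩
  have e00 : v 0 * N 0 0 + w 0 * N 1 0 = 1 := by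
    rw [n00, n10]; field_simp; rw [hDd]; ring
  have e01 : v 0 * N 0 1 + w 0 * N 1 1 = 0 := by
    rw [n01, n11]; field_simp; ring
  have e10 : v 1 * N 0 0 + w 1 * N 1 0 = 0 := by
    rw [n00, n10]; field_simp; ring
  have e11 : v 1 * N 0 1 + w 1 * N 1 1 = 1 := by
    rw [n01, n11]; field_simp; rw [hDd]; ring
  have f00 : N 0 0 * v 0 + N 0 1 * v 1 = 1 := by
    rw [n00, n01]; field_simp; rw [hDd]; ring
  have f01 : N 0 0 * w 0 + N 0 1 * w 1 = 0 := by
    rw [n00, n01]; field_simp; ring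
  have f10 : N 1 0 * v 0 + N 1 1 * v 1 = 0 := by
    rw [n10, n11]; field_simp; ring
  have f11 : N 1 0 * w 0 + N 1 1 * w 1 = 1 := by
    rw [n10, n11]; field_simp; rw [hDd]; ring
  have hAN : ∀ p, aff A u (aff N c p) = p := by
    intro p
    funext i
    rw [affA]
    simp only [aff, hc, Pi.add_apply, Pi.smul_apply, smul_eq_mul]
    fin_cases i
    · simp only [Fin.zero_eta]
      linear_combination (p 0 - u 0) * e00 + (p 1 - u 1) * e01
    · simp only [Fin.mk_one]
      linear_combination (p 0 - u 0) * e10 + (p 1 - u 1) * e11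
  have hNA : ∀ x, aff N c (aff A u x) = x := by
    intro x
    rw [affA]
    funext i
    simp only [aff, hc, Pi.add_apply, Pi.smul_apply, smul_eq_mul]
    fin_cases i
    · simp only [Fin.zero_eta]
      linear_combination x 0 * f00 + x 1 * f01
    · simp only [Fin.mk_one]
      linear_combination x 0 * f10 + x 1 * f11
  obtain ⟨P', hP'⟩ : ∃ P', P' = C (N 0 0) * sub A u P + C (N 0 1) * sub A u Q := ⟨_, rfl⟩
  obtain ⟨Q', hQ'⟩ : ∃ Q', Q' = C (N 1 0) * sub A u P + C (N 1 1) * sub A u Q := ⟨_, rfl⟩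
  have evP : ∀ x, eval x P' = N 0 0 * eval (aff A u x) P + N 0 1 * eval (aff A u x) Q := by
    intro x; rw [hP', map_add, map_mul, map_mul, eval_C, eval_C, eval_sub', eval_sub']
  have evQ : ∀ x, eval x Q' = N 1 0 * eval (aff A u x) P + N 1 1 * eval (aff A u x) Q := by
    intro x; rw [hQ', map_add, map_mul, map_mul, eval_C, eval_C, eval_sub', eval_sub']
  have hfield : ∀ x, eval (s x) P = e * ((N 0 0 * eval x P + N 0 1 * eval x Q) * v 0 -
      (N 1 0 * eval x P + N 1 1 * eval x Q) * w 0) ∧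
      eval (s x) Q = e * ((N 0 0 * eval x P + N 0 1 * eval x Q) * v 1 -
      (N 1 0 * eval x P + N 1 1 * eval x Q) * w 1) := by
    intro x
    have h3 : (![eval x P, eval x Q] : Fin 2 → ℝ) =
        (N 0 0 * eval x P + N 0 1 * eval x Q) • v + (N 1 0 * eval x P + N 1 1 * eval x Q) • w := by
      funext i
      fin_cases i
      · simp only [Fin.zero_eta, Matrix.cons_val_zero, Pi.add_apply, Pi.smul_apply, smul_eq_mul]
        linear_combination (-eval x P) * e00 - eval x Q * e01
      · simp only [Fin.mk_one, Matrix.cons_val_one, Matrix.cons_val_fin_one, Pi.add_apply,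
          Pi.smul_apply, smul_eq_mul]
        linear_combination (-eval x P) * e10 - eval x Q * e11
    have h4 := h x
    rw [h3, map_add, map_smul, map_smul, hv, hw] at h4
    constructor
    · have h5 := congrFun h4 0
      simp only [Matrix.cons_val_zero, Pi.add_apply, Pi.smul_apply, Pi.neg_apply,
        smul_eq_mul] at h5
      rw [h5]; ring
    · have h5 := congrFun h4 1
      simp only [Matrix.cons_val_one, Matrix.cons_val_fin_one, Pi.add_apply, Pi.smul_apply,
        Pi.neg_apply, smul_eq_mul] at h5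
      rw [h5]; ring
  have htP : tg P' = C e * P' := by
    apply MvPolynomial.funext
    intro x
    rw [tg_eval, evP, ← sA, (hfield _).1, (hfield _).2, map_mul, eval_C, evP]
    linear_combination (e * (N 0 0 * eval (aff A u x) P + N 0 1 * eval (aff A u x) Q)) * f00 -
      (e * (N 1 0 * eval (aff A u x) P + N 1 1 * eval (aff A u x) Q)) * f01
  have htQ : tg Q' = C (-e) * Q' := by
    apply MvPolynomial.funext
    intro x
    rw [tg_eval, evQ, ← sA, (hfield _).1, (hfield _).2, map_mul, eval_C, evQ]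
    linear_combination (e * (N 0 0 * eval (aff A u x) P + N 0 1 * eval (aff A u x) Q)) * f10 -
      (e * (N 1 0 * eval (aff A u x) P + N 1 1 * eval (aff A u x) Q)) * f11
  have backP : ∀ F G : R, ∀ k : R, k * F = P' → k * G = Q' →
      sub N c k * (C (v 0) * sub N c F + C (w 0) * sub N c G) = P ∧
      sub N c k * (C (v 1) * sub N c F + C (w 1) * sub N c G) = Q := by
    intro F G k hF hG
    have g1 : ∀ x, eval x k * eval x F = N 0 0 * eval (aff A u x) P +
        N 0 1 * eval (aff A u x) Q := by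
      intro x; rw [← map_mul, hF, evP]
    have g2 : ∀ x, eval x k * eval x G = N 1 0 * eval (aff A u x) P +
        N 1 1 * eval (aff A u x) Q := by
      intro x; rw [← map_mul, hG, evQ]
    constructor
    · apply MvPolynomial.funext
      intro p
      have g3 := g1 (aff N c p)
      have g4 := g2 (aff N c p)
      rw [hAN] at g3 g4
      rw [map_mul, map_add, map_mul, map_mul, eval_C, eval_C, eval_sub', eval_sub', eval_sub']
      linear_combination v 0 * g3 + w 0 * g4 + eval p P * e00 + eval p Q * e01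
    · apply MvPolynomial.funext
      intro p
      have g3 := g1 (aff N c p)
      have g4 := g2 (aff N c p)
      rw [hAN] at g3 g4
      rw [map_mul, map_add, map_mul, map_mul, eval_C, eval_C, eval_sub', eval_sub', eval_sub']
      linear_combination v 1 * g3 + w 1 * g4 + eval p P * e10 + eval p Q * e11
  have dP' : P'.totalDegree ≤ n := by
    rw [hP']
    refine (totalDegree_add _ _).trans (max_le ?_ ?_)
    · refine (totalDegree_mul _ _).trans ?_
      rw [totalDegree_C, zero_add]; exact totalDegree_sub' A u hP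
    · refine (totalDegree_mul _ _).trans ?_
      rw [totalDegree_C, zero_add]; exact totalDegree_sub' A u hQ
  have dQ' : Q'.totalDegree ≤ n := by
    rw [hQ']
    refine (totalDegree_add _ _).trans (max_le ?_ ?_)
    · refine (totalDegree_mul _ _).trans ?_
      rw [totalDegree_C, zero_add]; exact totalDegree_sub' A u hP
    · refine (totalDegree_mul _ _).trans ?_
      rw [totalDegree_C, zero_add]; exact totalDegree_sub' A u hQ
  constructor
  · intro S hS hoff
    by_cases hP0 : P' = 0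
    · have hS0 : S = ∅ := by
        refine Finset.eq_empty_of_forall_notMem fun p hp => ?_
        obtain ⟨b1, b2⟩ := backP 0 1 Q' (by rw [mul_zero, hP0]) (mul_one _)
        have h3 := hS p hp
        rw [← b1, ← b2] at h3
        have h4 := centre_reduced h3
        have h5 := h4.1
        have h6 := h4.2.1
        rw [map_zero, mul_zero, zero_add, map_one, mul_one, eval_C] at h5 h6
        rw [hDd, h5, h6, mul_zero, zero_mul, sub_zero] at hD
        exact hD rfl
      rw [hS0, Finset.card_empty]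
      exact Nat.zero_le _
    obtain ⟨P₀, Q₀, k, hrp, hPe, hQe⟩ := UniqueFactorizationMonoid.exists_reduced_factors P' hP0 Q'
    have hk0 : k ≠ 0 := by
      rintro rfl
      exact hP0 (by rw [← hPe, zero_mul])
    have hP₀ : P₀ ≠ 0 := by
      rintro rfl
      exact hP0 (by rw [← hPe, mul_zero])
    have hdP : P₀.totalDegree ≤ n := by
      rw [← hPe, totalDegree_mul_of_isDomain hk0 hP₀] at dP'
      omega
    have hdQ : Q₀.totalDegree ≤ n := by
      by_cases hQ₀ : Q₀ = 0
      · rw [hQ₀, totalDegree_zero]; omega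
      · rw [← hQe, totalDegree_mul_of_isDomain hk0 hQ₀] at dQ'
        omega
    obtain ⟨r, hrr, htP₀, htQ₀⟩ := tg_reduced hk0 hP₀ hrp hPe hQe hee htP htQ
    obtain ⟨b1, b2⟩ := backP P₀ Q₀ k hPe hQe
    have hdet : (v 0 * w 1 - w 0 * v 1) * (N 0 0 * N 1 1 - N 0 1 * N 1 0) = 1 := by
      linear_combination (N 0 1 * v 1 + N 1 1 * w 1) * e00 -
        (N 0 0 * v 1 + N 1 0 * w 1) * e01 + e11
    have key := card_line0 hn hrp hdP hdQ hrr htP₀ htQ₀ (S.image (aff N c)) (by
      intro q hq
      obtain ⟨p, hp, rfl⟩ := Finset.mem_image.1 hq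
      have h3 := hS p hp
      rw [← b1, ← b2] at h3
      obtain ⟨g1, g2, g3⟩ := centre_reduced h3
      rw [map_add, map_mul, map_mul, eval_C, eval_C, eval_sub', eval_sub'] at g1 g2
      rw [jac_sub, hdet, one_mul] at g3
      refine ⟨?_, ?_, ?_⟩
      · linear_combination N 0 0 * g1 + N 0 1 * g2 - eval (aff N c p) P₀ * f00 -
          eval (aff N c p) Q₀ * f01
      · linear_combination N 1 0 * g1 + N 1 1 * g2 - eval (aff N c p) P₀ * f10 -
          eval (aff N c p) Q₀ * f11
      · rw [jacP, map_sub, map_mul, map_mul]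
        exact g3) (by
      intro q hq
      obtain ⟨p, hp, rfl⟩ := Finset.mem_image.1 hq
      intro h3
      apply hoff p hp
      have h4 : rp (aff N c p) = aff N c p := by
        funext i
        fin_cases i
        · simp [rp, sn]
        · simp only [Fin.mk_one, rp, h3, mul_zero]
      have h5 := sA (aff N c p)
      rw [h4, hAN] at h5
      exact h5)
    rwa [Finset.card_image_of_injective _ (fun x y hxy => by
      rw [← hAN x, hxy, hAN])] at key
  · intro he1 p hc1 hsp
    refine centre_off hc1 (a := N 1 0) (b := N 1 1) (c := c 1) ?_ ?_ ?_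
    · by_contra hcon
      push Not at hcon
      rw [hcon.1, hcon.2] at f11
      simp at f11
    · intro x hx
      have h3 : aff N c x 1 = 0 := by
        simp only [aff]; linarith
      have h4 : rp (aff N c x) = aff N c x := by
        funext i
        fin_cases i
        · simp [rp, sn]
        · simp only [Fin.mk_one, rp, h3, mul_zero]
      have h5 := congrArg (eval (aff N c x)) htQ
      rw [tg_eval, h4, he1, map_mul, eval_C] at h5
      have h6 : eval (aff N c x) Q' = 0 := by linarith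
      rw [evQ, hAN] at h6
      exact h6
    · have h3 : rp (aff N c p) = aff N c p := by
        have h4 := sA (aff N c p)
        rw [hAN, hsp] at h4
        conv_rhs => rw [h4, hNA]
      have h4 := congrFun h3 1
      have s1 : (sn 1) = -1 := by rw [sn, if_neg (by decide)]
      rw [rp, s1] at h4
      simp only [aff] at h4
      linarith

end Pool.Agent.H53LS
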